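import Pool.Agent.Lib.H1F.LIFT.L11
import Pool.Agent.Lib.H1F.MO.M9
import Pool.Agent.Lib.H1F.MO.M11

/-!
# H1F, part LIFT: `X` lifts

The gluing condition over the Witt vectors and the final lifting theorem.
-/

open CategoryTheory CategoryTheory.Limits AlgebraicGeometry MvPolynomial

universe u

namespace H1F

/-- Every rational function is a quotient of polynomials. -/
theorem exists_frac (R : Type u) [CommRing R] [IsDomain R] (x : KF R) :
    ∃ a b : MvPolynomial (Fin 3) R, aeval ![var R 0, var R 1, var R 2] b ≠ 0 ∧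
      x * aeval ![var R 0, var R 1, var R 2] b = aeval ![var R 0, var R 1, var R 2] a := by
  have h : ∀ q : MvPolynomial (Fin 3) R, aeval ![var R 0, var R 1, var R 2] q =
      algebraMap (MvPolynomial (Fin 3) R) (KF R) q := by
    intro q
    have h1 : (aeval ![var R 0, var R 1, var R 2] : MvPolynomial (Fin 3) R →ₐ[R] KF R) =
        IsScalarTower.toAlgHom R (MvPolynomial (Fin 3) R) (KF R) := by
      refine MvPolynomial.algHom_ext fun i ↦ ?_
      rw [aeval_X]
      fin_cases i <;> rfl
    rw [h1]
    rfl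
  obtain ⟨a, b, hb, hx⟩ := IsFractionRing.div_surjective (A := MvPolynomial (Fin 3) R) x
  have hb0 : algebraMap (MvPolynomial (Fin 3) R) (KF R) b ≠ 0 :=
    IsFractionRing.to_map_ne_zero_of_mem_nonZeroDivisors hb
  refine ⟨a, b, ?_, ?_⟩
  · rw [h]
    exact hb0
  · rw [h, h, ← hx, div_mul_cancel₀ _ hb0]

/-- The nine functions over the Witt vectors are nonzero: their reductions are nonzero. -/
theorem fn_witt_ne_zero (p : ℕ) [Fact p.Prime] (hp : 5 ≤ p) (k : Type u) [Field k] [CharP k p]
    (i : Fin 9) : fn p (var (WittVector p k) 0) (var (WittVector p k) 1)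
      (var (WittVector p k) 2) i ≠ 0 := by
  obtain ⟨P, hP⟩ := exists_place (WittVector.constantCoeff (p := p) (R := k)) (Fin 3)
  have hvar : ∀ i, P.Sp (var (WittVector p k) i) (var k i) := fun i ↦ by
    have h := hP (MvPolynomial.X i)
    rw [MvPolynomial.map_X] at h
    exact h
  have hne := fn_ne_zero (k := k) p hp (frameOK_var k).ind
  have o := P.sp_one
  have h0 := hvar 0
  have h1 := hvar 1
  have h2 := hvar 2
  fin_cases i
  · exact h0.ne_zero (hne 0)
  · exact h1.ne_zero (hne 1)
  · exact h2.ne_zero (hne 2)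
  · exact (h1.sub o).ne_zero (hne 3)
  · exact (h2.sub o).ne_zero (hne 4)
  · exact (h1.sub h2).ne_zero (hne 5)
  · exact (h0.sub o).ne_zero (hne 6)
  · exact (h0.sub (h1.pow p)).ne_zero (hne 7)
  · exact (h0.sub (h2.pow p)).ne_zero (hne 8)

/-- The gluing condition over the Witt vectors. -/
theorem glueCond_witt (p : ℕ) [Fact p.Prime] (hp : 5 ≤ p) (k : Type u) [Field k] [CharP k p] :
    GlueCond (fun c : {c : Ch // c.inX} ↦ ring (WittVector p k) p
      (var (WittVector p k) 0) (var (WittVector p k) 1) (var (WittVector p k) 2) (c : Ch)) :=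
  glueCond_X p hp (fn_witt_ne_zero p hp k) (exists_frac (WittVector p k))

/-- The gluing condition over `k`. -/
theorem glueCond_field (p : ℕ) [Fact p.Prime] (hp : 5 ≤ p) (k : Type u) [Field k] [CharP k p] :
    GlueCond (fun c : {c : Ch // c.inX} ↦ ring k p (var k 0) (var k 1) (var k 2) (c : Ch)) :=
  glueCond_X p hp (fn_ne_zero (k := k) p hp (frameOK_var k).ind) (exists_frac k)

/-- **The lifting theorem**: `X` lifts over `W_m(k)` for all `m`. -/
theorem liftsOver_X (p : ℕ) [Fact p.Prime] (hp : 5 ≤ p) (k : Type u) [Field k] [CharP k p]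
    [PerfectRing k p] (X : Over (Spec (CommRingCat.of k)))
    (a : Atlas (fun c : {c : Ch // c.inX} ↦ ring k p (var k 0) (var k 1) (var k 2) (c : Ch)) X)
    (m : ℕ) (hm : 0 < m) : LiftsOver p k m hm X :=
  liftsOver_of_glueCond p k (glueCond_witt p hp k) X a m hm

end H1F
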