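import Pool.Agent.Lib.H1F.AT.At

/-!
# H1F, LIFT, part 1: a glued scheme is determined by its chart rings
-/

open CategoryTheory CategoryTheory.Limits AlgebraicGeometry Order

universe u

namespace H1F

variable {R₀ : Type u} [CommRing R₀] {K : Type u} [Field K] [Algebra R₀ K]
  {ι : Type} [Finite ι] [Nonempty ι]

/-- The open cover of a glued scheme by its charts. -/
noncomputable def Atlas.openCover {R : ι → Subalgebra R₀ K} {X : Over (Spec (CommRingCat.of R₀))}
    (a : Atlas R X) : X.left.OpenCover :=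
  haveI := a.isOpen
  Scheme.Cover.mkOfCovers ι (fun i ↦ SpecS (R i)) a.c a.cover (fun i ↦ a.isOpen i)

/-- Morphisms from a glued scheme are determined on the charts. -/
theorem Atlas.left_ext {R : ι → Subalgebra R₀ K} {X : Over (Spec (CommRingCat.of R₀))}
    (a : Atlas R X) {Y : Scheme.{u}} {f g : X.left ⟶ Y} (h : ∀ i, a.c i ≫ f = a.c i ≫ g) :
    f = g :=
  a.openCover.hom_ext _ _ h

/-- Morphisms from a glued scheme are determined on the charts. -/
theorem Atlas.hom_ext {R : ι → Subalgebra R₀ K} {X Y : Over (Spec (CommRingCat.of R₀))}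
    (a : Atlas R X) {f g : X ⟶ Y} (h : ∀ i, a.c i ≫ f.left = a.c i ≫ g.left) : f = g :=
  Over.OverMorphism.ext (a.left_ext h)

theorem specIncl_refl (R : Subalgebra R₀ K) (h : R ≤ R) : specIncl h = 𝟙 _ := by
  have : (Subalgebra.inclusion h).toRingHom = RingHom.id R := rfl
  rw [specIncl, this]
  exact Spec.map_id _

/-- Two schemes with the same atlas are isomorphic. -/
theorem Atlas.nonempty_iso {R : ι → Subalgebra R₀ K} {X Y : Over (Spec (CommRingCat.of R₀))}
    (a : Atlas R X) (b : Atlas R Y) : Nonempty (X ≅ Y) := by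
  obtain ⟨f, hf⟩ := a.exists_hom b fun i ↦ ⟨i, le_rfl⟩
  obtain ⟨g, hg⟩ := b.exists_hom a fun i ↦ ⟨i, le_rfl⟩
  have hf' : ∀ i, a.c i ≫ f.left = b.c i := fun i ↦ by
    rw [hf i i le_rfl, specIncl_refl, Category.id_comp]
  have hg' : ∀ i, b.c i ≫ g.left = a.c i := fun i ↦ by
    rw [hg i i le_rfl, specIncl_refl, Category.id_comp]
  refine ⟨⟨f, g, a.hom_ext fun i ↦ ?_, b.hom_ext fun i ↦ ?_⟩⟩
  · rw [Over.comp_left, ← Category.assoc, hf', hg']; simp
  · rw [Over.comp_left, ← Category.assoc, hg', hf']; simp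

end H1F
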