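import Pool.Agent.Lib.H1F.LIFT.L8

/-!
# H1F, LIFT, part 10: reduction of the charts `P1`, `P2`
-/

universe u

namespace H1F

open MvPolynomial Finset

/-- The formula for `A` on the chart `P2`. -/
theorem A_eq_P2 {K : Type*} [Field K] (p : ℕ) {A v w : K} (hv : v - 1 ≠ 0) (hw : w - 1 ≠ 0)
    (hvw : v - w ≠ 0) :
    v ^ p + (v - w) * ((v - 1) / (w - 1) * nn p A v w - (∑ j ∈ range p, v ^ j - p)) = A := by
  have h := geom_sum_mul v p
  have h1 : (v ^ p - 1 - p * (v - 1)) / (v - 1) = ∑ j ∈ range p, v ^ j - p := by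
    rw [← h]
    field_simp
  have h2 : (v - 1) / (w - 1) * nn p A v w =
      (A - v ^ p) / (v - w) + (∑ j ∈ range p, v ^ j - p) := by
    rw [nn, h1]
    field_simp
  rw [h2]
  field_simp
  ring

/-- The formula for `A` on the chart `P1`. -/
theorem A_eq_P1 {K : Type*} [Field K] (p : ℕ) {A v w : K} (hv : v - 1 ≠ 0) (hw : w - 1 ≠ 0)
    (hvw : v - w ≠ 0) :
    v ^ p - (v - w) * ((w - 1) / (v - 1) *
      (-(((v - 1) / (w - 1)) ^ 2 * nn p A v w + p * ((v - 1) / (w - 1)))) +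
        ∑ j ∈ range p, v ^ j) = A := by
  have h1 : (w - 1) / (v - 1) *
      (-(((v - 1) / (w - 1)) ^ 2 * nn p A v w + p * ((v - 1) / (w - 1)))) =
      -((v - 1) / (w - 1) * nn p A v w) - p := by
    field_simp
    ring
  rw [h1]
  have h2 := A_eq_P2 p (A := A) hv hw hvw
  linear_combination h2

section

variable {W k : Type u} [CommRing W] [Field k] {ρ : W →+* k} {K' K : Type u}
  [Field K'] [Field K] [Algebra W K'] [Algebra k K] {P : Place ρ K' K}

theorem sp_nn {p : ℕ} {a' v' w' : K'} {a v w : K}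
    (ha : P.Sp a' a) (hv : P.Sp v' v) (hw : P.Sp w' w) (h : FrameOK k a v w) :
    P.Sp (nn p a' v' w') (nn p a v w) := by
  have o := P.sp_one
  exact ((hw.sub o).div (hv.sub o) h.v1_ne).mul (((ha.sub (hv.pow p)).div (hv.sub hw) h.vw_ne).add
    ((((hv.pow p).sub o).sub ((P.sp_natCast p).mul (hv.sub o))).div (hv.sub o) h.v1_ne))

/-- The common part of the charts `P1` and `P2`. -/
theorem reduces_P_aux {ϖ : W} (hρ : RhoOK ρ ϖ) {a' v' w' x' y' z' : K'} {a v w x y z : K}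
    (ha : P.Sp a' a) (hv : P.Sp v' v) (hw : P.Sp w' w) (hx : P.Sp x' x) (hy : P.Sp y' y)
    (hz : P.Sp z' z) (h : FrameOK k a v w) (hind : AlgebraicIndependent k ![x, y, z])
    {FA FV FW : MvPolynomial (Fin 3) W} (hA : aeval ![x', y', z'] FA = a')
    (hV : aeval ![x', y', z'] FV = v') (hW : aeval ![x', y', z'] FW = w') :
    P.Reduces (Algebra.adjoin W {x', y', z', a'⁻¹, v'⁻¹, w'⁻¹})
      (Algebra.adjoin k {x, y, z, a⁻¹, v⁻¹, w⁻¹}) := by
  have hS := Place.SpSet.insert hx (.insert hy (.insert hz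
    (.insert (ha.inv h.a_ne) (.insert (hv.inv h.v_ne) (.single (hw.inv h.w_ne))))))
  have e3 := ha.ne_zero h.a_ne
  have e4 := hv.ne_zero h.v_ne
  have e5 := hw.ne_zero h.w_ne
  have hU : aeval ![x', y', z'] (FA * FV * FW) = a' * v' * w' := by
    rw [map_mul, map_mul, hA, hV, hW]
  refine Place.reduces_of_presentation hρ.surj hρ.dvd hρ.zero hS.1 hS.2
    (X' := ![x', y', z']) (X := ![x, y, z]) ?_ hind (FA * FV * FW)
    (u := a * v * w) ?_ (mul_ne_zero (mul_ne_zero h.a_ne h.v_ne) h.w_ne) ?_ ?_ ?_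
  · intro i
    fin_cases i
    · exact hx
    · exact hy
    · exact hz
  · rw [hU]
    exact (ha.mul hv).mul hw
  · rw [hU]
    rintro _ (rfl | rfl | rfl | rfl | rfl | rfl)
    · exact ⟨0, X 0, by simp⟩
    · exact ⟨0, X 1, by simp⟩
    · exact ⟨0, X 2, by simp⟩
    · refine ⟨1, FV * FW, ?_⟩
      rw [map_mul, hV, hW]
      field_simp
    · refine ⟨1, FA * FW, ?_⟩
      rw [map_mul, hA, hW]
      field_simp
    · refine ⟨1, FA * FV, ?_⟩
      rw [map_mul, hA, hV]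
      field_simp
  · intro i
    fin_cases i
    · exact Algebra.subset_adjoin (by simp)
    · exact Algebra.subset_adjoin (by simp)
    · exact Algebra.subset_adjoin (by simp)
  · rw [hU, mul_inv, mul_inv]
    exact mul_mem (mul_mem (Algebra.subset_adjoin (by simp)) (Algebra.subset_adjoin (by simp)))
      (Algebra.subset_adjoin (by simp))

theorem reduces_P2 {ϖ : W} (hρ : RhoOK ρ ϖ) {p : ℕ} {a' v' w' : K'} {a v w : K}
    (ha : P.Sp a' a) (hv : P.Sp v' v) (hw : P.Sp w' w) (h : FrameOK k a v w) :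
    P.Reduces (P2 W p a' v' w') (P2 k p a v w) := by
  have o := P.sp_one
  have hn := sp_nn (p := p) ha hv hw h
  have hs := (hv.sub o).div (hw.sub o) h.w1_ne
  have e0 := (hv.sub o).ne_zero h.v1_ne
  have e1 := (hw.sub o).ne_zero h.w1_ne
  have e2 := (hv.sub hw).ne_zero h.vw_ne
  obtain ⟨FV, hV⟩ : ∃ F : MvPolynomial (Fin 3) W,
      aeval ![(v' - 1) / (w' - 1), w' - 1, nn p a' v' w'] F = v' := by
    refine ⟨1 + X 0 * X 1, ?_⟩
    simp only [map_mul, map_add, map_one, aeval_X, Matrix.cons_val_zero,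
      Matrix.cons_val_one]
    field_simp
    ring
  obtain ⟨FW, hW⟩ : ∃ F : MvPolynomial (Fin 3) W,
      aeval ![(v' - 1) / (w' - 1), w' - 1, nn p a' v' w'] F = w' := by
    refine ⟨1 + X 1, ?_⟩
    simp only [map_add, map_one, aeval_X, Matrix.cons_val_one, Matrix.cons_val_zero]
    ring
  have hA : aeval ![(v' - 1) / (w' - 1), w' - 1, nn p a' v' w']
      (FV ^ p + (FV - FW) * (X 0 * X 2 - (∑ j ∈ range p, FV ^ j - (p : MvPolynomial (Fin 3) W)))) =
        a' := by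
    simp only [map_add, map_mul, map_sub, map_sum, map_pow, hV, hW, aeval_X, map_natCast]
    exact A_eq_P2 p e0 e1 e2
  refine reduces_P_aux hρ ha hv hw hs (hw.sub o) hn h ?_ hA hV hW
  have m0 := mem_adj0 (k := k) ((v - 1) / (w - 1)) (w - 1) (nn p a v w)
  have m1 := mem_adj1 (k := k) ((v - 1) / (w - 1)) (w - 1) (nn p a v w)
  have m2 := mem_adj2 (k := k) ((v - 1) / (w - 1)) (w - 1) (nn p a v w)
  have e : v = (v - 1) / (w - 1) * (w - 1) + 1 := by
    rw [div_mul_cancel₀ _ h.w1_ne]; ring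
  have mv := mem_of_eq' e (add_mem (mul_mem m0 m1) (one_mem _))
  have mw := mem_of_eq' (sub_add_cancel w 1).symm (add_mem m1 (one_mem _))
  refine h.ind_of_mem ?_ mv mw
  exact mem_of_eq' (A_eq_P2 p h.v1_ne h.w1_ne h.vw_ne).symm (add_mem (pow_mem mv p)
    (mul_mem (sub_mem mv mw) (sub_mem (mul_mem m0 m2) (sub_mem
      (sum_mem fun j _ ↦ pow_mem mv j) (natCast_mem _ p)))))

theorem reduces_P1 {ϖ : W} (hρ : RhoOK ρ ϖ) {p : ℕ} {a' v' w' : K'} {a v w : K}
    (ha : P.Sp a' a) (hv : P.Sp v' v) (hw : P.Sp w' w) (h : FrameOK k a v w) :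
    P.Reduces (P1 W p a' v' w') (P1 k p a v w) := by
  have o := P.sp_one
  have hs := (hv.sub o).div (hw.sub o) h.w1_ne
  have hn := (((hs.pow 2).mul (sp_nn (p := p) ha hv hw h)).add ((P.sp_natCast p).mul hs)).neg
  have ht := (hw.sub o).div (hv.sub o) h.v1_ne
  have e0 := (hv.sub o).ne_zero h.v1_ne
  have e1 := (hw.sub o).ne_zero h.w1_ne
  have e2 := (hv.sub hw).ne_zero h.vw_ne
  obtain ⟨FV, hV⟩ : ∃ F : MvPolynomial (Fin 3) W,
      aeval ![(w' - 1) / (v' - 1), v' - 1, -(((v' - 1) / (w' - 1)) ^ 2 * nn p a' v' w' +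
        p * ((v' - 1) / (w' - 1)))] F = v' := by
    refine ⟨1 + X 1, ?_⟩
    simp only [map_add, map_one, aeval_X, Matrix.cons_val_one, Matrix.cons_val_zero]
    ring
  obtain ⟨FW, hW⟩ : ∃ F : MvPolynomial (Fin 3) W,
      aeval ![(w' - 1) / (v' - 1), v' - 1, -(((v' - 1) / (w' - 1)) ^ 2 * nn p a' v' w' +
        p * ((v' - 1) / (w' - 1)))] F = w' := by
    refine ⟨1 + X 0 * X 1, ?_⟩
    simp only [map_mul, map_add, map_one, aeval_X, Matrix.cons_val_zero,
      Matrix.cons_val_one]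
    field_simp
    ring
  have hA : aeval ![(w' - 1) / (v' - 1), v' - 1, -(((v' - 1) / (w' - 1)) ^ 2 * nn p a' v' w' +
        p * ((v' - 1) / (w' - 1)))]
      (FV ^ p - (FV - FW) * (X 0 * X 2 + ∑ j ∈ range p, FV ^ j)) = a' := by
    simp only [map_add, map_mul, map_sub, map_sum, map_pow, hV, hW, aeval_X]
    exact A_eq_P1 p e0 e1 e2
  refine reduces_P_aux hρ ha hv hw ht (hv.sub o) hn h ?_ hA hV hW
  have m0 := mem_adj0 (k := k) ((w - 1) / (v - 1)) (v - 1) (-(((v - 1) / (w - 1)) ^ 2 *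
    nn p a v w + p * ((v - 1) / (w - 1))))
  have m1 := mem_adj1 (k := k) ((w - 1) / (v - 1)) (v - 1) (-(((v - 1) / (w - 1)) ^ 2 *
    nn p a v w + p * ((v - 1) / (w - 1))))
  have m2 := mem_adj2 (k := k) ((w - 1) / (v - 1)) (v - 1) (-(((v - 1) / (w - 1)) ^ 2 *
    nn p a v w + p * ((v - 1) / (w - 1))))
  have e : w = (w - 1) / (v - 1) * (v - 1) + 1 := by
    rw [div_mul_cancel₀ _ h.v1_ne]; ring
  have mw := mem_of_eq' e (add_mem (mul_mem m0 m1) (one_mem _))
  have mv := mem_of_eq' (sub_add_cancel v 1).symm (add_mem m1 (one_mem _))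
  refine h.ind_of_mem ?_ mv mw
  exact mem_of_eq' (A_eq_P1 p h.v1_ne h.w1_ne h.vw_ne).symm (sub_mem (pow_mem mv p)
    (mul_mem (sub_mem mv mw) (add_mem (mul_mem m0 m2) (sum_mem fun j _ ↦ pow_mem mv j))))

end

end H1F
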