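import Pool.Agent.Lib.H1F.LIFT.L2

/-!
# H1F, LIFT, part 5: the Gauss place of a field of rational functions
-/

universe u

namespace H1F

open MvPolynomial

/-- A place from two homomorphisms of a local ring. -/
theorem exists_place_of_hom {W k : Type u} [CommRing W] [CommRing k] {ρ : W →+* k} {K' K : Type u}
    [Field K'] [Field K] [Algebra W K'] [Algebra k K] {L : Type u} [CommRing L]
    (i : L →+* K') (j : L →+* K) (hi : Function.Injective i) (b : W →+* L)
    (hb : ∀ w, i (b w) = algebraMap W K' w) (hb' : ∀ w, j (b w) = algebraMap k K (ρ w))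
    (hinv : ∀ l, j l ≠ 0 → ∃ l', l * l' = 1) :
    ∃ P : Place ρ K' K, ∀ l, P.Sp (i l) (j l) := by
  let e : L ≃+* i.range := RingEquiv.ofBijective i.rangeRestrict
    ⟨fun x y h ↦ hi (congrArg Subtype.val h), i.rangeRestrict_surjective⟩
  have he : ∀ (x : i.range) (l : L), (x : K') = i l → e.symm x = l := fun x l h ↦ by
    rw [RingEquiv.symm_apply_eq]
    exact Subtype.ext h
  have hmem : ∀ w, algebraMap W K' w ∈ i.range := fun w ↦ ⟨b w, hb w⟩
  refine ⟨⟨i.range, j.comp e.symm.toRingHom, hmem, fun w ↦ ?_, fun x hl ↦ ?_⟩,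
    fun l ↦ ⟨⟨l, rfl⟩, ?_⟩⟩
  · change j (e.symm _) = _
    rw [he _ (b w) (hb w).symm, hb']
  · obtain ⟨l, hx⟩ := x.2
    change j (e.symm _) ≠ 0 at hl
    rw [he _ l hx.symm] at hl
    obtain ⟨l', hl'⟩ := hinv l hl
    refine ⟨l', ?_⟩
    have h2 : i l * i l' = 1 := by rw [← map_mul, hl', map_one]
    rw [← hx]
    exact eq_inv_of_mul_eq_one_right h2
  · change j (e.symm _) = _
    rw [he _ l rfl]

/-- The Gauss place: reduction of the coefficients. -/
theorem exists_place {W k : Type u} [CommRing W] [IsDomain W] [Field k] (ρ : W →+* k)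
    (σ : Type) :
    ∃ P : Place ρ (FractionRing (MvPolynomial σ W)) (FractionRing (MvPolynomial σ k)),
      ∀ f : MvPolynomial σ W, P.Sp (algebraMap _ _ f) (algebraMap _ _ (MvPolynomial.map ρ f)) := by
  classical
  let A := MvPolynomial σ W
  let B := MvPolynomial σ k
  let K' := FractionRing A
  let K := FractionRing B
  let r : A →+* B := MvPolynomial.map ρ
  let S : Submonoid A := (nonZeroDivisors B).comap r
  have hS : ∀ s ∈ S, (s : A) ≠ 0 := by
    rintro s hs rfl
    exact nonZeroDivisors.ne_zero hs (map_zero r)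
  have hunit : ∀ s : S, IsUnit (algebraMap A K' s) := fun s ↦
    (IsFractionRing.to_map_ne_zero_of_mem_nonZeroDivisors
      (mem_nonZeroDivisors_of_ne_zero (hS s s.2))).isUnit
  have hunit' : ∀ s : S, IsUnit (((algebraMap B K).comp r) s) := fun s ↦
    (IsFractionRing.to_map_ne_zero_of_mem_nonZeroDivisors s.2).isUnit
  let L := Localization S
  let i : L →+* K' := IsLocalization.lift hunit
  let j : L →+* K := IsLocalization.lift hunit'
  have hi0 : ∀ a : A, i (algebraMap A L a) = algebraMap A K' a := fun a ↦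
    IsLocalization.lift_eq hunit a
  have hj0 : ∀ a : A, j (algebraMap A L a) = algebraMap B K (r a) := fun a ↦
    IsLocalization.lift_eq hunit' a
  have hi : Function.Injective i := by
    rw [injective_iff_map_eq_zero]
    intro x hx
    obtain ⟨f, s, rfl⟩ := IsLocalization.exists_mk'_eq S x
    have h1 : i (IsLocalization.mk' L f s) * i (algebraMap A L s) = i (algebraMap A L f) := by
      rw [← map_mul, IsLocalization.mk'_spec]
    rw [hx, zero_mul, hi0] at h1
    have h2 : f = 0 := (IsFractionRing.to_map_eq_zero_iff (K := K')).1 h1.symm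
    rw [h2, IsLocalization.mk'_zero]
  have hinv : ∀ l, j l ≠ 0 → ∃ l', l * l' = 1 := by
    intro l hl
    obtain ⟨f, s, rfl⟩ := IsLocalization.exists_mk'_eq S l
    have h1 : j (IsLocalization.mk' L f s) * j (algebraMap A L s) = j (algebraMap A L f) := by
      rw [← map_mul, IsLocalization.mk'_spec]
    have h2 : f ∈ S := by
      refine mem_nonZeroDivisors_of_ne_zero fun h ↦ ?_
      rw [hj0 f, h, map_zero] at h1
      rcases mul_eq_zero.1 h1 with h3 | h3
      · exact hl h3
      · rw [hj0] at h3
        exact (hunit' s).ne_zero h3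
    refine ⟨IsLocalization.mk' L (s : A) ⟨f, h2⟩, ?_⟩
    rw [← IsLocalization.mk'_mul, IsLocalization.mk'_eq_iff_eq_mul]
    simp [mul_comm]
  obtain ⟨P, hP⟩ := exists_place_of_hom (ρ := ρ) i j hi ((algebraMap A L).comp C) (fun w ↦ hi0 _)
    (fun w ↦ by
      change j (algebraMap A L (C w)) = _
      rw [hj0]
      change algebraMap B K (MvPolynomial.map ρ (C w)) = _
      rw [map_C]
      rfl) hinv
  refine ⟨P, fun f ↦ ?_⟩
  have h := hP (algebraMap A L f)
  rw [hi0, hj0] at h
  exact h

end H1F
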