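import Pool.Agent.Lib.H1F.LIFT.L8

/-!
# H1F, LIFT, part 9: reduction of the charts `M`, `T6`
-/

universe u

namespace H1F

open MvPolynomial

section

variable {W k : Type u} [CommRing W] [Field k] {ρ : W →+* k} {K' K : Type u}
  [Field K'] [Field K] [Algebra W K'] [Algebra k K] {P : Place ρ K' K}

theorem reduces_MM {ϖ : W} (hρ : RhoOK ρ ϖ) {p : ℕ} (hp : p ≠ 0) {a' v' w' : K'} {a v w : K}
    (ha : P.Sp a' a) (hv : P.Sp v' v) (hw : P.Sp w' w) (h : FrameOK k a v w) :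
    P.Reduces (MM W p a' v' w') (MM k p a v w) := by
  have o := P.sp_one
  have sv := ha.sub (hv.pow p)
  have sw := ha.sub (hw.pow p)
  have tv := (hv.sub o).pow p
  have tw := (hw.sub o).pow p
  have tv0 := pow_ne_zero p h.v1_ne
  have tw0 := pow_ne_zero p h.w1_ne
  have hS := Place.SpSet.insert ha (.insert (ha.inv h.a_ne) (.insert ((hv.sub o).inv h.v1_ne)
    (.insert ((hw.sub o).inv h.w1_ne) (.insert (tv.div sv (h.av_ne hp))
      (.single (tw.div sw (h.aw_ne hp)))))))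
  have e1 := (hv.sub o).ne_zero h.v1_ne
  have e2 := (hw.sub o).ne_zero h.w1_ne
  have e3 := ha.ne_zero h.a_ne
  have e4 := sv.ne_zero (h.av_ne hp)
  have e5 := sw.ne_zero (h.aw_ne hp)
  have e6 : 1 + (v' - 1)⁻¹ = v' * (v' - 1)⁻¹ := by
    field_simp
    ring
  have e7 : 1 + (w' - 1)⁻¹ = w' * (w' - 1)⁻¹ := by
    field_simp
    ring
  have hF : aeval ![a', (v' - 1)⁻¹, (w' - 1)⁻¹]
      (X 0 * X 1 ^ p - (1 + X 1) ^ p : MvPolynomial (Fin 3) W) =
        (a' - v' ^ p) / (v' - 1) ^ p := by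
    simp only [map_mul, map_add, map_sub, map_one, map_pow, aeval_X, Matrix.cons_val_zero,
      Matrix.cons_val_one, Matrix.cons_val]
    rw [e6, mul_pow, inv_pow]
    field_simp
  have hG : aeval ![a', (v' - 1)⁻¹, (w' - 1)⁻¹]
      (X 0 * X 2 ^ p - (1 + X 2) ^ p : MvPolynomial (Fin 3) W) =
        (a' - w' ^ p) / (w' - 1) ^ p := by
    simp only [map_mul, map_add, map_sub, map_one, map_pow, aeval_X, Matrix.cons_val_zero,
      Matrix.cons_val_one, Matrix.cons_val]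
    rw [e7, mul_pow, inv_pow]
    field_simp
  have h0 : aeval ![a', (v' - 1)⁻¹, (w' - 1)⁻¹] (X 0 : MvPolynomial (Fin 3) W) = a' := by
    simp
  have hU : aeval ![a', (v' - 1)⁻¹, (w' - 1)⁻¹]
      (X 0 * (X 0 * X 1 ^ p - (1 + X 1) ^ p) * (X 0 * X 2 ^ p - (1 + X 2) ^ p) :
        MvPolynomial (Fin 3) W) =
        a' * ((a' - v' ^ p) / (v' - 1) ^ p) * ((a' - w' ^ p) / (w' - 1) ^ p) := by
    rw [map_mul, map_mul, hF, hG, h0]
  refine Place.reduces_of_presentation hρ.surj hρ.dvd hρ.zero hS.1 hS.2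
    (X' := ![a', (v' - 1)⁻¹, (w' - 1)⁻¹]) (X := ![a, (v - 1)⁻¹, (w - 1)⁻¹]) ?_ ?_
    (X 0 * (X 0 * X 1 ^ p - (1 + X 1) ^ p) * (X 0 * X 2 ^ p - (1 + X 2) ^ p))
    (u := a * ((a - v ^ p) / (v - 1) ^ p) * ((a - w ^ p) / (w - 1) ^ p)) ?_
    (mul_ne_zero (mul_ne_zero h.a_ne (div_ne_zero (h.av_ne hp) tv0))
      (div_ne_zero (h.aw_ne hp) tw0)) ?_ ?_ ?_
  · intro i
    fin_cases i
    · exact ha
    · exact (hv.sub o).inv h.v1_ne
    · exact (hw.sub o).inv h.w1_ne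
  · have m0 := mem_adj0 (k := k) a (v - 1)⁻¹ (w - 1)⁻¹
    have m1 := mem_adj1 (k := k) a (v - 1)⁻¹ (w - 1)⁻¹
    have m2 := mem_adj2 (k := k) a (v - 1)⁻¹ (w - 1)⁻¹
    refine h.ind_of_mem m0 ?_ ?_
    · have e : v = ((v - 1)⁻¹)⁻¹ + 1 := by rw [inv_inv]; ring
      exact mem_of_eq' e (add_mem (inv_mem m1) (one_mem _))
    · have e : w = ((w - 1)⁻¹)⁻¹ + 1 := by rw [inv_inv]; ring
      exact mem_of_eq' e (add_mem (inv_mem m2) (one_mem _))
  · rw [hU]
    exact (ha.mul (sv.div tv tv0)).mul (sw.div tw tw0)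
  · rw [hU]
    rintro _ (rfl | rfl | rfl | rfl | rfl | rfl)
    · exact ⟨0, X 0, by simp⟩
    · refine ⟨1, (X 0 * X 1 ^ p - (1 + X 1) ^ p) * (X 0 * X 2 ^ p - (1 + X 2) ^ p), ?_⟩
      rw [map_mul, hF, hG]
      field_simp
    · exact ⟨0, X 1, by simp⟩
    · exact ⟨0, X 2, by simp⟩
    · refine ⟨1, X 0 * (X 0 * X 2 ^ p - (1 + X 2) ^ p), ?_⟩
      rw [map_mul, h0, hG]
      field_simp
    · refine ⟨1, X 0 * (X 0 * X 1 ^ p - (1 + X 1) ^ p), ?_⟩
      rw [map_mul, h0, hF]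
      field_simp
  · intro i
    fin_cases i
    · exact Algebra.subset_adjoin (by simp)
    · exact Algebra.subset_adjoin (by simp)
    · exact Algebra.subset_adjoin (by simp)
  · rw [hU]
    have h5 : (a' * ((a' - v' ^ p) / (v' - 1) ^ p) * ((a' - w' ^ p) / (w' - 1) ^ p))⁻¹ =
        a'⁻¹ * ((v' - 1) ^ p / (a' - v' ^ p)) * ((w' - 1) ^ p / (a' - w' ^ p)) := by
      field_simp
    rw [h5]
    exact mul_mem (mul_mem (Algebra.subset_adjoin (by simp)) (Algebra.subset_adjoin (by simp)))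
      (Algebra.subset_adjoin (by simp))

theorem reduces_T6 {ϖ : W} (hρ : RhoOK ρ ϖ) {p : ℕ} (hp : p ≠ 0) {a' v' w' : K'} {a v w : K}
    (ha : P.Sp a' a) (hv : P.Sp v' v) (hw : P.Sp w' w) (h : FrameOK k a v w) :
    P.Reduces (T6 W p a' v' w') (T6 k p a v w) := by
  have o := P.sp_one
  have sv := ha.sub (hv.pow p)
  have sw := ha.sub (hw.pow p)
  have hS := Place.SpSet.insert ha (.insert (ha.inv h.a_ne) (.insert hv (.insert (hv.inv h.v_ne)
    (.insert hw (.insert (hw.inv h.w_ne) (.insert ((ha.sub o).inv h.a1_ne)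
      (.insert (sv.inv (h.av_ne hp)) (.single (sw.inv (h.aw_ne hp))))))))))
  have e0 := (ha.sub o).ne_zero h.a1_ne
  have e1 := hv.ne_zero h.v_ne
  have e2 := hw.ne_zero h.w_ne
  have e3 := ha.ne_zero h.a_ne
  have e4 := sv.ne_zero (h.av_ne hp)
  have e5 := sw.ne_zero (h.aw_ne hp)
  have hU : aeval ![a', v', w'] (X 0 * X 1 * X 2 * (X 0 - 1) * (X 0 - X 1 ^ p) *
      (X 0 - X 2 ^ p) : MvPolynomial (Fin 3) W) =
        a' * v' * w' * (a' - 1) * (a' - v' ^ p) * (a' - w' ^ p) := by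
    simp only [map_mul, map_add, map_sub, map_one, map_pow, aeval_X, Matrix.cons_val_zero,
      Matrix.cons_val_one, Matrix.cons_val]
  refine Place.reduces_of_presentation hρ.surj hρ.dvd hρ.zero hS.1 hS.2
    (X' := ![a', v', w']) (X := ![a, v, w]) ?_ h.ind
    (X 0 * X 1 * X 2 * (X 0 - 1) * (X 0 - X 1 ^ p) * (X 0 - X 2 ^ p))
    (u := a * v * w * (a - 1) * (a - v ^ p) * (a - w ^ p)) ?_
    (mul_ne_zero (mul_ne_zero (mul_ne_zero (mul_ne_zero (mul_ne_zero h.a_ne h.v_ne) h.w_ne)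
      h.a1_ne) (h.av_ne hp)) (h.aw_ne hp)) ?_ ?_ ?_
  · intro i
    fin_cases i
    · exact ha
    · exact hv
    · exact hw
  · rw [hU]
    exact ((((ha.mul hv).mul hw).mul (ha.sub o)).mul sv).mul sw
  · rw [hU]
    rintro _ (rfl | rfl | rfl | rfl | rfl | rfl | rfl | rfl | rfl)
    · exact ⟨0, X 0, by simp⟩
    · refine ⟨1, X 1 * X 2 * (X 0 - 1) * (X 0 - X 1 ^ p) * (X 0 - X 2 ^ p), ?_⟩
      simp only [map_mul, map_add, map_sub, map_one, map_pow, aeval_X, Matrix.cons_val_zero,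
        Matrix.cons_val_one, Matrix.cons_val]
      field_simp
    · exact ⟨0, X 1, by simp⟩
    · refine ⟨1, X 0 * X 2 * (X 0 - 1) * (X 0 - X 1 ^ p) * (X 0 - X 2 ^ p), ?_⟩
      simp only [map_mul, map_add, map_sub, map_one, map_pow, aeval_X, Matrix.cons_val_zero,
        Matrix.cons_val_one, Matrix.cons_val]
      field_simp
    · exact ⟨0, X 2, by simp⟩
    · refine ⟨1, X 0 * X 1 * (X 0 - 1) * (X 0 - X 1 ^ p) * (X 0 - X 2 ^ p), ?_⟩
      simp only [map_mul, map_add, map_sub, map_one, map_pow, aeval_X, Matrix.cons_val_zero,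
        Matrix.cons_val_one, Matrix.cons_val]
      field_simp
    · refine ⟨1, X 0 * X 1 * X 2 * (X 0 - X 1 ^ p) * (X 0 - X 2 ^ p), ?_⟩
      simp only [map_mul, map_add, map_sub, map_one, map_pow, aeval_X, Matrix.cons_val_zero,
        Matrix.cons_val_one, Matrix.cons_val]
      field_simp
    · refine ⟨1, X 0 * X 1 * X 2 * (X 0 - 1) * (X 0 - X 2 ^ p), ?_⟩
      simp only [map_mul, map_add, map_sub, map_one, map_pow, aeval_X, Matrix.cons_val_zero,
        Matrix.cons_val_one, Matrix.cons_val]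
      field_simp
    · refine ⟨1, X 0 * X 1 * X 2 * (X 0 - 1) * (X 0 - X 1 ^ p), ?_⟩
      simp only [map_mul, map_add, map_sub, map_one, map_pow, aeval_X, Matrix.cons_val_zero,
        Matrix.cons_val_one, Matrix.cons_val]
      field_simp
  · intro i
    fin_cases i
    · exact Algebra.subset_adjoin (by simp)
    · exact Algebra.subset_adjoin (by simp)
    · exact Algebra.subset_adjoin (by simp)
  · rw [hU]
    have h5 : (a' * v' * w' * (a' - 1) * (a' - v' ^ p) * (a' - w' ^ p))⁻¹ =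
        a'⁻¹ * v'⁻¹ * w'⁻¹ * (a' - 1)⁻¹ * (a' - v' ^ p)⁻¹ * (a' - w' ^ p)⁻¹ := by
      simp only [mul_inv]
    rw [h5]
    exact mul_mem (mul_mem (mul_mem (mul_mem (mul_mem (Algebra.subset_adjoin (by simp))
      (Algebra.subset_adjoin (by simp))) (Algebra.subset_adjoin (by simp)))
      (Algebra.subset_adjoin (by simp))) (Algebra.subset_adjoin (by simp)))
      (Algebra.subset_adjoin (by simp))

end

end H1F
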