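import Pool.Agent.Lib.H1F.LIFT.L4
import Pool.Agent.Lib.H1F.LIFT.L5
import Pool.Agent.Lib.H1F.LIFT.L9
import Pool.Agent.Lib.H1F.LIFT.L10

/-!
# H1F, LIFT, part 11: reduction of all charts, the lifting theorem
-/

open CategoryTheory CategoryTheory.Limits AlgebraicGeometry Order

universe u

namespace H1F

section Frame

variable {k : Type*} {K : Type*} [Field k] [Field K] [Algebra k K] {a v w : K}

theorem FrameOK.swap (h : FrameOK k a v w) : FrameOK k a w v :=
  h.of_mem (mem_adj0 _ _ _) (mem_adj2 _ _ _) (mem_adj1 _ _ _)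

theorem FrameOK.turn (h : FrameOK k a v w) (p : ℕ) : FrameOK k (a / v ^ p) v⁻¹ (w / v) := by
  have m0 := mem_adj0 (k := k) (a / v ^ p) v⁻¹ (w / v)
  have m1 := mem_adj1 (k := k) (a / v ^ p) v⁻¹ (w / v)
  have m2 := mem_adj2 (k := k) (a / v ^ p) v⁻¹ (w / v)
  have mv := mem_of_eq' (inv_inv v).symm (inv_mem m1)
  refine h.of_mem (mem_of_eq' ?_ (mul_mem m0 (pow_mem mv p))) mv (mem_of_eq' ?_ (mul_mem m2 mv))
  · rw [div_mul_cancel₀ _ (pow_ne_zero p h.v_ne)]
  · rw [div_mul_cancel₀ _ h.v_ne]

theorem FrameOK.frame {A v w : K} (h : FrameOK k A v w) (p : ℕ) (f : Fin 6) :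
    FrameOK k (fa p A v w f) (fv v w f) (fw v w f) := by
  fin_cases f
  · exact h
  · exact h.swap
  · exact h.turn p
  · exact (h.turn p).swap
  · exact h.swap.turn p
  · exact (h.swap.turn p).swap

end Frame

section

variable {W k : Type u} [CommRing W] [Field k] {ρ : W →+* k} {K' K : Type u}
  [Field K'] [Field K] [Algebra W K'] [Algebra k K] {P : Place ρ K' K}

theorem sp_fa {p : ℕ} {A' v' w' : K'} {A v w : K} (hA : P.Sp A' A)
    (hv : P.Sp v' v) (hw : P.Sp w' w) (h : FrameOK k A v w) (f : Fin 6) :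
    P.Sp (fa p A' v' w' f) (fa p A v w f) := by
  have h1 := hA.div (hv.pow p) (pow_ne_zero p h.v_ne)
  have h2 := hA.div (hw.pow p) (pow_ne_zero p h.w_ne)
  fin_cases f
  · exact hA
  · exact hA
  · exact h1
  · exact h1
  · exact h2
  · exact h2

theorem sp_fv {v' w' : K'} {A v w : K} (hv : P.Sp v' v) (hw : P.Sp w' w) (h : FrameOK k A v w)
    (f : Fin 6) : P.Sp (fv v' w' f) (fv v w f) := by
  fin_cases f
  · exact hv
  · exact hw
  · exact hv.inv h.v_ne
  · exact hw.div hv h.v_ne
  · exact hw.inv h.w_ne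
  · exact hv.div hw h.w_ne

theorem sp_fw {v' w' : K'} {A v w : K} (hv : P.Sp v' v) (hw : P.Sp w' w) (h : FrameOK k A v w)
    (f : Fin 6) : P.Sp (fw v' w' f) (fw v w f) := by
  fin_cases f
  · exact hw
  · exact hv
  · exact hw.div hv h.v_ne
  · exact hv.inv h.v_ne
  · exact hv.div hw h.w_ne
  · exact hw.inv h.w_ne

/-- The reduction of all charts of `X`. -/
theorem reduces_ring {ϖ : W} (hρ : RhoOK ρ ϖ) {p : ℕ} (hp : p ≠ 0) {A' v' w' : K'} {A v w : K}
    (hA : P.Sp A' A) (hv : P.Sp v' v) (hw : P.Sp w' w) (h : FrameOK k A v w) (c : Ch)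
    (hc : c.inX) : P.Reduces (ring W p A' v' w' c) (ring k p A v w c) := by
  cases c with
  | NI f =>
    exact reduces_NI hρ (sp_fa hA hv hw h f) (sp_fv hv hw h f) (sp_fw hv hw h f) (h.frame p f)
  | NII f =>
    exact reduces_NII hρ (sp_fa hA hv hw h f) (sp_fv hv hw h f) (sp_fw hv hw h f) (h.frame p f)
  | M i =>
    fin_cases i
    · exact reduces_MM hρ hp hA hv hw h
    · exact reduces_MM hρ hp (sp_fa hA hv hw h 2) (sp_fv hv hw h 2) (sp_fw hv hw h 2)
        (h.frame p 2)
    · exact reduces_MM hρ hp (sp_fa hA hv hw h 4) (sp_fv hv hw h 4) (sp_fw hv hw h 4)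
        (h.frame p 4)
  | T6 => exact reduces_T6 hρ hp hA hv hw h
  | P1 => exact reduces_P1 hρ hA hv hw h
  | P2 => exact reduces_P2 hρ hA hv hw h
  | P3 => exact absurd hc id
  | P4 => exact absurd hc id
  | Y0 => exact absurd hc id

end

/-- The field of rational functions in the variables `A, v, w` over a domain. -/
noncomputable abbrev KF (R : Type u) [CommRing R] : Type u := FractionRing (MvPolynomial (Fin 3) R)

/-- The variables. -/
noncomputable def var (R : Type u) [CommRing R] (i : Fin 3) : KF R :=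
  algebraMap (MvPolynomial (Fin 3) R) (KF R) (MvPolynomial.X i)

theorem frameOK_var (k : Type u) [Field k] : FrameOK k (var k 0) (var k 1) (var k 2) := by
  have h : ![var k 0, var k 1, var k 2] = fun i : Fin 3 ↦
      algebraMap (MvPolynomial (Fin 3) k) (KF k) (MvPolynomial.X i) := by
    funext i
    fin_cases i <;> rfl
  refine ⟨?_, ?_⟩
  · rw [h]
    exact algebraicIndependent_variables k
  · rw [h]
    exact adjoin_variables k

instance L11_finite_Ch : Finite Ch := by
  let f : Ch → Fin 9 × Fin 6 := fun c ↦ match c with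
    | .NI f => (0, f)
    | .NII f => (1, f)
    | .M i => (2, i.castLE (by decide))
    | .T6 => (3, 0)
    | .P1 => (4, 0)
    | .P2 => (5, 0)
    | .P3 => (6, 0)
    | .P4 => (7, 0)
    | .Y0 => (8, 0)
  refine Finite.of_injective f fun c d h ↦ ?_
  cases c <;> cases d <;> simp_all [f]

theorem rhoOK_witt (p : ℕ) [Fact p.Prime] (k : Type u) [Field k] [CharP k p] [PerfectRing k p] :
    RhoOK (WittVector.constantCoeff (p := p) (R := k)) (p : WittVector p k) := by
  have h := WittVector.ker_constantCoeff (p := p) (k := k)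
  refine ⟨WittVector.constantCoeff_surjective p, fun w hw ↦ ?_, ?_⟩
  · have h1 : w ∈ RingHom.ker (WittVector.constantCoeff (p := p) (R := k)) := hw
    rw [h, Ideal.mem_span_singleton] at h1
    exact h1
  · have h1 : (p : WittVector p k) ∈ RingHom.ker (WittVector.constantCoeff (p := p) (R := k)) := by
      rw [h]
      exact Ideal.mem_span_singleton_self _
    exact h1

/-- The lifting theorem. -/
theorem liftsOver_of_glueCond (p : ℕ) [Fact p.Prime] (k : Type u) [Field k] [CharP k p]
    [PerfectRing k p]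
    (hglue : GlueCond (fun c : {c : Ch // c.inX} ↦ ring (WittVector p k) p
      (var (WittVector p k) 0) (var (WittVector p k) 1) (var (WittVector p k) 2) (c : Ch)))
    (X : Over (Spec (CommRingCat.of k)))
    (a : Atlas (fun c : {c : Ch // c.inX} ↦ ring k p (var k 0) (var k 1) (var k 2) (c : Ch)) X)
    (m : ℕ) (hm : 0 < m) : LiftsOver p k m hm X := by
  have hne : Nonempty {c : Ch // c.inX} := ⟨⟨.T6, trivial⟩⟩
  obtain ⟨𝒳, ⟨b⟩⟩ := exists_atlas hglue
  obtain ⟨P, hP⟩ := exists_place (WittVector.constantCoeff (p := p) (R := k)) (Fin 3)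
  have hvar : ∀ i, P.Sp (var (WittVector p k) i) (var k i) := fun i ↦ by
    have h := hP (MvPolynomial.X i)
    rw [MvPolynomial.map_X] at h
    exact h
  have hred : ∀ c : {c : Ch // c.inX}, P.Reduces
      (ring (WittVector p k) p (var (WittVector p k) 0) (var (WittVector p k) 1)
        (var (WittVector p k) 2) (c : Ch)) (ring k p (var k 0) (var k 1) (var k 2) (c : Ch)) :=
    fun c ↦ reduces_ring (rhoOK_witt p k) (Fact.out : p.Prime).ne_zero (hvar 0) (hvar 1) (hvar 2)
      (frameOK_var k) c c.2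
  obtain ⟨b'⟩ := exists_atlas_fibre (rhoOK_witt p k).surj hred b
  obtain ⟨e⟩ := b'.nonempty_iso a
  exact liftsOver_of_witt p k X 𝒳 (flat_of_atlas b) e m hm

end H1F
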