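import Pool.Agent.Lib.H1F.LIFT.L1

/-!
# H1F, LIFT, part 2: the special fibre of a glued scheme
-/

open CategoryTheory CategoryTheory.Limits AlgebraicGeometry Order

universe u

namespace H1F

/-- The square with surjective horizontal arrows, whose second kernel is generated by the first. -/
theorem isPushout_of_surjective {W k A B : Type u} [CommRing W] [CommRing k] [CommRing A]
    [CommRing B] (ρ : W →+* k) (hρ : Function.Surjective ρ) (α : W →+* A) (β : k →+* B)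
    (π : A →+* B) (hπ : Function.Surjective π) (comm : π.comp α = β.comp ρ)
    (hker : ∀ a, π a = 0 → ∃ w a', ρ w = 0 ∧ a = α w * a') :
    IsPushout (CommRingCat.ofHom α) (CommRingCat.ofHom ρ) (CommRingCat.ofHom π)
      (CommRingCat.ofHom β) := by
  refine ⟨⟨by ext1; simpa using comm⟩, ⟨PushoutCocone.IsColimit.mk _ (fun s ↦ ?_) ?_ ?_ ?_⟩⟩
  · refine CommRingCat.ofHom (π.liftOfSurjective hπ ⟨s.inl.hom, fun a ha ↦ ?_⟩)
    obtain ⟨w, a', hw, rfl⟩ := hker a ha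
    have h := congrArg (fun f ↦ f.hom w) s.condition
    simp only [CommRingCat.hom_comp, CommRingCat.hom_ofHom, RingHom.comp_apply, hw, map_zero] at h
    rw [RingHom.mem_ker, map_mul, h, zero_mul]
  · intro s
    ext a
    exact π.liftOfRightInverse_comp_apply _ (Function.rightInverse_surjInv hπ) _ _
  · intro s
    ext y
    obtain ⟨w, rfl⟩ := hρ y
    have h := congrArg (fun f ↦ f.hom w) s.condition
    simp only [CommRingCat.hom_comp, CommRingCat.hom_ofHom, RingHom.comp_apply] at h ⊢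
    rw [← h, ← RingHom.comp_apply β ρ, ← comm, RingHom.comp_apply]
    exact π.liftOfRightInverse_comp_apply _ (Function.rightInverse_surjInv hπ) _ _
  · intro s m h1 h2
    ext b
    obtain ⟨a, rfl⟩ := hπ b
    have h := congrArg (fun f ↦ f.hom a) h1
    simp only [CommRingCat.hom_comp, CommRingCat.hom_ofHom, RingHom.comp_apply] at h ⊢
    rw [h]
    exact (RingHom.liftOfRightInverse_comp_apply π _ (Function.rightInverse_surjInv hπ)
      ⟨s.inl.hom, _⟩ a).symm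

/-- A place of the field `K'` with values in the field `K`, over the ring homomorphism `ρ`. -/
structure Place {W k : Type u} [CommRing W] [CommRing k] (ρ : W →+* k) (K' K : Type u)
    [Field K'] [Field K] [Algebra W K'] [Algebra k K] where
  /-- the valuation ring -/
  Λ : Subring K'
  /-- the reduction -/
  π : Λ →+* K
  base_mem : ∀ w : W, algebraMap W K' w ∈ Λ
  base : ∀ w : W, π ⟨algebraMap W K' w, base_mem w⟩ = algebraMap k K (ρ w)
  inv_mem : ∀ x : Λ, π x ≠ 0 → (x : K')⁻¹ ∈ Λ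

section Place

variable {W k : Type u} [CommRing W] [CommRing k] {ρ : W →+* k} {K' K : Type u}
  [Field K'] [Field K] [Algebra W K'] [Algebra k K]

/-- `x` reduces to `y`. -/
def Place.Sp (P : Place ρ K' K) (x : K') (y : K) : Prop := ∃ h : x ∈ P.Λ, P.π ⟨x, h⟩ = y

variable {P : Place ρ K' K}

theorem Place.Sp.unique {x : K'} {y y' : K} (h : P.Sp x y) (h' : P.Sp x y') : y = y' := by
  obtain ⟨_, rfl⟩ := h
  obtain ⟨_, rfl⟩ := h'
  rfl

theorem Place.Sp.add {x x' : K'} {y y' : K} (h : P.Sp x y) (h' : P.Sp x' y') :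
    P.Sp (x + x') (y + y') := by
  obtain ⟨h, rfl⟩ := h
  obtain ⟨h', rfl⟩ := h'
  exact ⟨add_mem h h', map_add P.π ⟨x, h⟩ ⟨x', h'⟩⟩

theorem Place.Sp.mul {x x' : K'} {y y' : K} (h : P.Sp x y) (h' : P.Sp x' y') :
    P.Sp (x * x') (y * y') := by
  obtain ⟨h, rfl⟩ := h
  obtain ⟨h', rfl⟩ := h'
  exact ⟨mul_mem h h', map_mul P.π ⟨x, h⟩ ⟨x', h'⟩⟩

theorem Place.Sp.sub {x x' : K'} {y y' : K} (h : P.Sp x y) (h' : P.Sp x' y') :
    P.Sp (x - x') (y - y') := by
  obtain ⟨h, rfl⟩ := h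
  obtain ⟨h', rfl⟩ := h'
  exact ⟨sub_mem h h', map_sub P.π ⟨x, h⟩ ⟨x', h'⟩⟩

theorem Place.Sp.neg {x : K'} {y : K} (h : P.Sp x y) : P.Sp (-x) (-y) := by
  obtain ⟨h, rfl⟩ := h
  exact ⟨neg_mem h, map_neg P.π ⟨x, h⟩⟩

theorem Place.Sp.pow {x : K'} {y : K} (h : P.Sp x y) (n : ℕ) : P.Sp (x ^ n) (y ^ n) := by
  obtain ⟨h, rfl⟩ := h
  exact ⟨pow_mem h n, map_pow P.π ⟨x, h⟩ n⟩

theorem Place.sp_one : P.Sp 1 1 := ⟨one_mem _, map_one P.π⟩

theorem Place.sp_zero : P.Sp 0 0 := ⟨zero_mem _, map_zero P.π⟩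

theorem Place.sp_natCast (n : ℕ) : P.Sp n n := ⟨natCast_mem _ n, map_natCast P.π n⟩

theorem Place.sp_algebraMap (w : W) : P.Sp (algebraMap W K' w) (algebraMap k K (ρ w)) :=
  ⟨P.base_mem w, P.base w⟩

theorem Place.Sp.inv {x : K'} {y : K} (h : P.Sp x y) (hy : y ≠ 0) : P.Sp x⁻¹ y⁻¹ := by
  obtain ⟨h, rfl⟩ := h
  have hx : x ≠ 0 := by
    rintro rfl
    exact hy (map_zero P.π)
  have h' := P.inv_mem ⟨x, h⟩ hy
  refine ⟨h', ?_⟩
  have h1 : P.π (⟨x, h⟩ * ⟨x⁻¹, h'⟩) = 1 := by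
    rw [show (⟨x, h⟩ * ⟨x⁻¹, h'⟩ : P.Λ) = 1 from Subtype.ext (mul_inv_cancel₀ hx), map_one]
  rw [map_mul] at h1
  exact eq_inv_of_mul_eq_one_right h1

theorem Place.Sp.div {x x' : K'} {y y' : K} (h : P.Sp x y) (h' : P.Sp x' y') (hy : y' ≠ 0) :
    P.Sp (x / x') (y / y') := by
  rw [div_eq_mul_inv, div_eq_mul_inv]
  exact h.mul (h'.inv hy)

/-- The ring `R` is the reduction of the ring `R'`, and the kernel is generated by the kernel
of `ρ`. -/
structure Place.Reduces (P : Place ρ K' K) (R' : Subalgebra W K') (R : Subalgebra k K) :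
    Prop where
  map : ∀ x ∈ R', ∃ y ∈ R, P.Sp x y
  surj : ∀ y ∈ R, ∃ x ∈ R', P.Sp x y
  ker : ∀ x ∈ R', P.Sp x 0 → ∃ w, ρ w = 0 ∧ ∃ a ∈ R', x = algebraMap W K' w * a

end Place

end H1F
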