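import Pool.Agent.Lib.H1F.LIFT.L2

/-!
# H1F, LIFT, part 3: the atlas of the special fibre
-/

open CategoryTheory CategoryTheory.Limits AlgebraicGeometry Order

universe u

namespace H1F

section Hom

variable {W k : Type u} [CommRing W] [CommRing k] {ρ : W →+* k} {K' K : Type u}
  [Field K'] [Field K] [Algebra W K'] [Algebra k K] {P : Place ρ K' K}
  {R' : Subalgebra W K'} {R : Subalgebra k K}

theorem Place.Reduces.le (h : P.Reduces R' R) (x : R') : (x : K') ∈ P.Λ := by
  obtain ⟨y, -, hx, -⟩ := h.map x x.2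
  exact hx

theorem Place.Reduces.π_mem (h : P.Reduces R' R) (x : R') : P.π ⟨x, h.le x⟩ ∈ R := by
  obtain ⟨y, hy, hx, hxy⟩ := h.map x x.2
  rw [hxy]
  exact hy

/-- The reduction homomorphism of the rings of functions. -/
noncomputable def Place.Reduces.hom (h : P.Reduces R' R) : R' →+* R where
  toFun x := ⟨P.π ⟨x, h.le x⟩, h.π_mem x⟩
  map_zero' := Subtype.ext (map_zero P.π)
  map_one' := Subtype.ext (map_one P.π)
  map_add' x y := Subtype.ext (map_add P.π ⟨x, h.le x⟩ ⟨y, h.le y⟩)
  map_mul' x y := Subtype.ext (map_mul P.π ⟨x, h.le x⟩ ⟨y, h.le y⟩)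

theorem Place.Reduces.isPushout (hρ : Function.Surjective ρ) (h : P.Reduces R' R) :
    IsPushout (CommRingCat.ofHom (algebraMap W R')) (CommRingCat.ofHom ρ)
      (CommRingCat.ofHom h.hom) (CommRingCat.ofHom (algebraMap k R)) := by
  refine isPushout_of_surjective ρ hρ _ _ _ (fun y ↦ ?_) ?_ fun a ha ↦ ?_
  · obtain ⟨x, hx, hx', hxy⟩ := h.surj y y.2
    exact ⟨⟨x, hx⟩, Subtype.ext hxy⟩
  · ext w
    exact P.base w
  · obtain ⟨w, hw, b, hb, hab⟩ := h.ker a a.2 ⟨h.le a, congrArg Subtype.val ha⟩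
    exact ⟨w, ⟨b, hb⟩, hw, Subtype.ext hab⟩

theorem Place.Reduces.isPullback (hρ : Function.Surjective ρ) (h : P.Reduces R' R) :
    IsPullback (Spec.map (CommRingCat.ofHom h.hom)) (specBase R) (specBase R')
      (Spec.map (CommRingCat.ofHom ρ)) :=
  isPullback_SpecMap_of_isPushout _ _ _ _ (h.isPushout hρ)

end Hom

/-- `Spec` of an injective ring homomorphism is dominant. -/
theorem isDominant_specMap {A B : Type u} [CommRing A] [CommRing B] (f : A →+* B)
    (hf : Function.Injective f) : IsDominant (Spec.map (CommRingCat.ofHom f)) := by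
  constructor
  have h := (PrimeSpectrum.denseRange_comap_iff_ker_le_nilRadical f).2 (by
    rw [(RingHom.injective_iff_ker_eq_bot f).1 hf]
    exact bot_le)
  exact h

section Fibre

variable {W k : Type u} [CommRing W] [CommRing k] {ρ : W →+* k} {K' K : Type u}
  [Field K'] [Field K] [Algebra W K'] [Algebra k K] {P : Place ρ K' K}
  {ι : Type} {R' : ι → Subalgebra W K'} {R : ι → Subalgebra k K}

/-- The structure map of the ring of the place. -/
noncomputable def Place.baseHom (P : Place ρ K' K) : W →+* P.Λ where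
  toFun w := ⟨algebraMap W K' w, P.base_mem w⟩
  map_zero' := Subtype.ext (map_zero (algebraMap W K'))
  map_one' := Subtype.ext (map_one (algebraMap W K'))
  map_add' x y := Subtype.ext (map_add (algebraMap W K') x y)
  map_mul' x y := Subtype.ext (map_mul (algebraMap W K') x y)

/-- The inclusion of a chart ring into the ring of the place. -/
noncomputable def Place.Reduces.incl {R' : Subalgebra W K'} {R : Subalgebra k K}
    (h : P.Reduces R' R) : R' →+* P.Λ where
  toFun x := ⟨x, h.le x⟩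
  map_zero' := rfl
  map_one' := rfl
  map_add' _ _ := rfl
  map_mul' _ _ := rfl

theorem place_charts (h : ∀ i, P.Reduces (R' i) (R i)) {𝒳 : Over (Spec (CommRingCat.of W))}
    (a : Atlas R' 𝒳) (i j : ι) :
    Spec.map (CommRingCat.ofHom (h i).incl) ≫ a.c i =
      Spec.map (CommRingCat.ofHom (h j).incl) ≫ a.c j := by
  have hsep := a.separated
  have hdom : IsDominant (Spec.map (CommRingCat.ofHom P.Λ.subtype)) :=
    isDominant_specMap _ Subtype.val_injective
  have hb : ∀ i, Spec.map (CommRingCat.ofHom (h i).incl) ≫ a.c i ≫ 𝒳.hom =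
      Spec.map (CommRingCat.ofHom P.baseHom) := fun i ↦ by
    rw [a.base i, ← Spec.map_comp, ← CommRingCat.ofHom_comp]
    rfl
  have hg : ∀ i, Spec.map (CommRingCat.ofHom P.Λ.subtype) ≫
      Spec.map (CommRingCat.ofHom (h i).incl) = specGen (R' i) := fun i ↦ by
    rw [← Spec.map_comp, ← CommRingCat.ofHom_comp]
    rfl
  refine ext_of_isDominant_of_isSeparated 𝒳.hom ?_
    (Spec.map (CommRingCat.ofHom P.Λ.subtype)) ?_
  · rw [Category.assoc, Category.assoc, hb, hb]
  · rw [← Category.assoc, ← Category.assoc, hg, hg, a.compat i j]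

/-- The atlas of the special fibre. -/
theorem exists_atlas_fibre (hρ : Function.Surjective ρ) (h : ∀ i, P.Reduces (R' i) (R i))
    {𝒳 : Over (Spec (CommRingCat.of W))} (a : Atlas R' 𝒳) :
    Nonempty (Atlas R (Over.mk (pullback.snd 𝒳.hom (Spec.map (CommRingCat.ofHom ρ))))) := by
  have hw : ∀ i, (Spec.map (CommRingCat.ofHom (h i).hom) ≫ a.c i) ≫ 𝒳.hom =
      specBase (R i) ≫ Spec.map (CommRingCat.ofHom ρ) := fun i ↦ by
    rw [Category.assoc, a.base i]
    exact ((h i).isPullback hρ).w
  let c : ∀ i, SpecS (R i) ⟶ pullback 𝒳.hom (Spec.map (CommRingCat.ofHom ρ)) := fun i ↦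
    pullback.lift (Spec.map (CommRingCat.ofHom (h i).hom) ≫ a.c i) (specBase (R i)) (hw i)
  have hc1 : ∀ i, c i ≫ pullback.fst _ _ = Spec.map (CommRingCat.ofHom (h i).hom) ≫ a.c i :=
    fun i ↦ pullback.lift_fst _ _ _
  have hc2 : ∀ i, c i ≫ pullback.snd _ _ = specBase (R i) := fun i ↦ pullback.lift_snd _ _ _
  have hsq : ∀ i, IsPullback (Spec.map (CommRingCat.ofHom (h i).hom)) (c i) (a.c i)
      (pullback.fst _ _) := fun i ↦ by
    refine IsPullback.of_bot ?_ (hc1 i).symm (IsPullback.of_hasPullback _ _)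
    rw [hc2 i, a.base i]
    exact (h i).isPullback hρ
  refine ⟨⟨c, fun i ↦ ?_, hc2, fun x ↦ ?_, fun i j ↦ ?_, ?_⟩⟩
  · exact MorphismProperty.of_isPullback (P := @IsOpenImmersion) (hsq i) (a.isOpen i)
  · obtain ⟨i, y, hy⟩ := a.cover (pullback.fst 𝒳.hom (Spec.map (CommRingCat.ofHom ρ)) x)
    obtain ⟨z, hz1, hz2⟩ := Scheme.Pullback.exists_preimage_pullback y x hy
    refine ⟨i, (hsq i).isoPullback.inv z, ?_⟩
    rw [← Scheme.Hom.comp_apply, IsPullback.isoPullback_inv_snd]
    exact hz2
  · have hgi : ∀ i, specGen (R i) ≫ Spec.map (CommRingCat.ofHom (h i).hom) =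
        Spec.map (CommRingCat.ofHom P.π) ≫ Spec.map (CommRingCat.ofHom (h i).incl) := fun i ↦ by
      rw [← Spec.map_comp, ← Spec.map_comp, ← CommRingCat.ofHom_comp, ← CommRingCat.ofHom_comp]
      rfl
    have hbi : ∀ i, specGen (R i) ≫ specBase (R i) =
        Spec.map (CommRingCat.ofHom (algebraMap k K)) := fun i ↦ by
      rw [← Spec.map_comp, ← CommRingCat.ofHom_comp]
      rfl
    refine pullback.hom_ext ?_ ?_
    · rw [Category.assoc, Category.assoc, hc1, hc1, ← Category.assoc, ← Category.assoc, hgi, hgi,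
        Category.assoc, Category.assoc, place_charts h a i j]
    · rw [Category.assoc, Category.assoc, hc2, hc2, hbi, hbi]
  · have := a.separated
    exact inferInstanceAs (IsSeparated (pullback.snd _ _))

end Fibre

end H1F
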