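import Pool.Agent.Lib.H1F.LIFT.L3

/-!
# H1F, LIFT, part 4: flatness and truncation
-/

open CategoryTheory CategoryTheory.Limits AlgebraicGeometry Order

universe u

namespace H1F

/-- A glued scheme over a Dedekind domain is flat. -/
theorem flat_of_atlas {W K' : Type u} [CommRing W] [IsDedekindDomain W] [Field K'] [Algebra W K']
    [FaithfulSMul W K'] {ι : Type} {R' : ι → Subalgebra W K'}
    {𝒳 : Over (Spec (CommRingCat.of W))} (a : Atlas R' 𝒳) : Flat 𝒳.hom := by
  have hl : IsZariskiLocalAtSource (@AlgebraicGeometry.Flat : MorphismProperty Scheme.{u}) :=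
    HasRingHomProperty.instIsZariskiLocalAtSource
  have key : ∀ i, Flat (a.c i ≫ 𝒳.hom) := fun i ↦ by
    rw [a.base i, Flat.SpecMap_iff, CommRingCat.hom_ofHom, RingHom.flat_algebraMap_iff]
    have : FaithfulSMul W (R' i) := by
      rw [faithfulSMul_iff_algebraMap_injective]
      intro x y hxy
      exact FaithfulSMul.algebraMap_injective W K' (congrArg Subtype.val hxy)
    infer_instance
  exact (IsZariskiLocalAtSource.iff_of_openCover (P := @AlgebraicGeometry.Flat)
    a.openCover).2 fun i ↦ key i

section Truncation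

variable (p : ℕ) [Fact p.Prime] (k : Type u) [CommRing k]

theorem residue_comp_truncate (m : ℕ) (hm : 0 < m) :
    (residue p k m hm).comp (WittVector.truncate m) = WittVector.constantCoeff := by
  ext x
  exact WittVector.coeff_truncate x ⟨0, hm⟩

/-- Reduction of the lifting problem to `W`. -/
theorem liftsOver_of_witt (X : Over (Spec (CommRingCat.of k)))
    (𝒳 : Over (Spec (CommRingCat.of (WittVector p k)))) (hflat : Flat 𝒳.hom)
    (e : Over.mk (pullback.snd 𝒳.hom (Spec.map (CommRingCat.ofHom
      (WittVector.constantCoeff (p := p) (R := k))))) ≅ X) (m : ℕ) (hm : 0 < m) :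
    LiftsOver p k m hm X := by
  let t : Spec (CommRingCat.of (TruncatedWittVector p m k)) ⟶ Spec (CommRingCat.of (WittVector p k)) :=
    Spec.map (CommRingCat.ofHom (WittVector.truncate m))
  have ht : Spec.map (CommRingCat.ofHom (residue p k m hm)) ≫ t =
      Spec.map (CommRingCat.ofHom (WittVector.constantCoeff (p := p) (R := k))) := by
    rw [← Spec.map_comp, ← CommRingCat.ofHom_comp, residue_comp_truncate]
  have h1 := (IsPullback.of_hasPullback (pullback.snd 𝒳.hom t)
    (Spec.map (CommRingCat.ofHom (residue p k m hm)))).paste_horiz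
      (IsPullback.of_hasPullback 𝒳.hom t)
  rw [ht] at h1
  have h2 := IsPullback.of_hasPullback 𝒳.hom (Spec.map (CommRingCat.ofHom
    (WittVector.constantCoeff (p := p) (R := k))))
  refine ⟨pullback 𝒳.hom t, pullback.snd 𝒳.hom t, inferInstance, ⟨Over.isoMk
    (h1.isoIsPullback _ _ h2) ?_ ≪≫ e⟩⟩
  exact h1.isoIsPullback_hom_snd _ _ h2

end Truncation

end H1F
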