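import Pool.Agent.Lib.H1F.LIFT.L2

/-!
# H1F, LIFT, part 6: reduction of rings `W[x, y, z, 1/U]`
-/

universe u

namespace H1F

open MvPolynomial

section

variable {W k : Type u} [CommRing W] [CommRing k] {ρ : W →+* k} {K' K : Type u}
  [Field K'] [Field K] [Algebra W K'] [Algebra k K] {P : Place ρ K' K}

/-- The elements of `K'` which are of the form `F(x, y, z) / U(x, y, z) ^ n`. -/
noncomputable def locSub (X' : Fin 3 → K') (U : MvPolynomial (Fin 3) W) : Subalgebra W K' where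
  carrier := {f | ∃ (n : ℕ) (F : MvPolynomial (Fin 3) W), f * (aeval X' U) ^ n = aeval X' F}
  mul_mem' := by
    rintro f g ⟨n, F, hF⟩ ⟨m, G, hG⟩
    refine ⟨n + m, F * G, ?_⟩
    rw [map_mul, ← hF, ← hG, pow_add]
    ring
  add_mem' := by
    rintro f g ⟨n, F, hF⟩ ⟨m, G, hG⟩
    refine ⟨n + m, F * U ^ m + G * U ^ n, ?_⟩
    rw [map_add, map_mul, map_mul, map_pow, map_pow, ← hF, ← hG, pow_add]
    ring
  algebraMap_mem' := by
    intro w
    exact ⟨0, C w, by simp⟩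

/-- Reduction of polynomial expressions. -/
theorem Place.sp_aeval {X' : Fin 3 → K'} {X : Fin 3 → K} (hX : ∀ i, P.Sp (X' i) (X i))
    (F : MvPolynomial (Fin 3) W) : P.Sp (aeval X' F) (aeval X (MvPolynomial.map ρ F)) := by
  induction F using MvPolynomial.induction_on with
  | C w => simpa using P.sp_algebraMap w
  | add F G hF hG => simpa using hF.add hG
  | mul_X F i hF => simpa using hF.mul (hX i)

/-- The reduction of a ring `W[x, y, z, 1/U]` with arbitrary generators. -/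
theorem Place.reduces_of_presentation (hρ : Function.Surjective ρ) {ϖ : W}
    (hϖ : ∀ w, ρ w = 0 → ϖ ∣ w) (hϖ0 : ρ ϖ = 0) {S' : Set K'} {S : Set K}
    (h1 : ∀ x ∈ S', ∃ y ∈ S, P.Sp x y) (h2 : ∀ y ∈ S, ∃ x ∈ S', P.Sp x y)
    {X' : Fin 3 → K'} {X : Fin 3 → K} (hX : ∀ i, P.Sp (X' i) (X i))
    (hind : AlgebraicIndependent k X) (U : MvPolynomial (Fin 3) W) {u : K}
    (hU : P.Sp (aeval X' U) u) (hu : u ≠ 0)
    (h3 : ∀ x ∈ S', ∃ (n : ℕ) (F : MvPolynomial (Fin 3) W),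
      x * (aeval X' U) ^ n = aeval X' F)
    (h4 : ∀ i, X' i ∈ Algebra.adjoin W S') (h5 : (aeval X' U)⁻¹ ∈ Algebra.adjoin W S') :
    P.Reduces (Algebra.adjoin W S') (Algebra.adjoin k S) := by
  refine ⟨fun x hx ↦ ?_, fun y hy ↦ ?_, fun x hx hx0 ↦ ?_⟩
  · induction hx using Algebra.adjoin_induction with
    | mem x hx =>
      obtain ⟨y, hy, hxy⟩ := h1 x hx
      exact ⟨y, Algebra.subset_adjoin hy, hxy⟩
    | algebraMap w => exact ⟨_, Subalgebra.algebraMap_mem _ _, P.sp_algebraMap w⟩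
    | add x x' _ _ hx hx' =>
      obtain ⟨y, hy, hxy⟩ := hx
      obtain ⟨y', hy', hxy'⟩ := hx'
      exact ⟨y + y', add_mem hy hy', hxy.add hxy'⟩
    | mul x x' _ _ hx hx' =>
      obtain ⟨y, hy, hxy⟩ := hx
      obtain ⟨y', hy', hxy'⟩ := hx'
      exact ⟨y * y', mul_mem hy hy', hxy.mul hxy'⟩
  · induction hy using Algebra.adjoin_induction with
    | mem y hy =>
      obtain ⟨x, hx, hxy⟩ := h2 y hy
      exact ⟨x, Algebra.subset_adjoin hx, hxy⟩
    | algebraMap w =>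
      obtain ⟨w, rfl⟩ := hρ w
      exact ⟨_, Subalgebra.algebraMap_mem _ _, P.sp_algebraMap w⟩
    | add y y' _ _ hy hy' =>
      obtain ⟨x, hx, hxy⟩ := hy
      obtain ⟨x', hx', hxy'⟩ := hy'
      exact ⟨x + x', add_mem hx hx', hxy.add hxy'⟩
    | mul y y' _ _ hy hy' =>
      obtain ⟨x, hx, hxy⟩ := hy
      obtain ⟨x', hx', hxy'⟩ := hy'
      exact ⟨x * x', mul_mem hx hx', hxy.mul hxy'⟩
  · have hle : Algebra.adjoin W S' ≤ locSub X' U := Algebra.adjoin_le h3
    obtain ⟨n, F, hF⟩ := hle hx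
    have hu' : aeval X' U ≠ 0 := by
      intro h
      rw [h] at hU
      exact hu (hU.unique P.sp_zero)
    have h6 : P.Sp (aeval X' F) 0 := by
      rw [← hF, ← zero_mul (u ^ n)]
      exact hx0.mul (hU.pow n)
    have h7 : aeval X (MvPolynomial.map ρ F) = 0 := (Place.sp_aeval hX F).unique h6
    have h8 : MvPolynomial.map ρ F = 0 :=
      (algebraicIndependent_iff.1 hind) _ h7
    have h9 : C ϖ ∣ F := by
      rw [C_dvd_iff_dvd_coeff]
      intro m
      refine hϖ _ ?_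
      rw [← coeff_map, h8, coeff_zero]
    obtain ⟨G, rfl⟩ := h9
    refine ⟨ϖ, hϖ0, aeval X' G * (aeval X' U)⁻¹ ^ n, mul_mem ?_ (pow_mem h5 n), ?_⟩
    · have h10 : (aeval X' G : K') ∈ Algebra.adjoin W (Set.range X') := by
        rw [Algebra.adjoin_range_eq_range_aeval]
        exact ⟨G, rfl⟩
      refine (Algebra.adjoin_le (S := Algebra.adjoin W S') ?_) h10
      rintro _ ⟨i, rfl⟩
      exact h4 i
    · rw [map_mul, aeval_C] at hF
      rw [← mul_assoc, ← hF, inv_pow, mul_assoc, mul_inv_cancel₀ (pow_ne_zero n hu'), mul_one]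

end

end H1F
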