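import Mathlib

/-!
# H1F, LIFT, part 7: three elements which generate the field are algebraically independent
-/

universe u

namespace H1F

/-- Elements which generate a field of transcendence degree `3` are algebraically independent. -/
theorem algebraicIndependent_of_mem {k K : Type*} [Field k] [Field K] [Algebra k K]
    {Y X : Fin 3 → K} (hY : AlgebraicIndependent k Y)
    (hK : IntermediateField.adjoin k (Set.range Y) = ⊤)
    (h : ∀ i, Y i ∈ IntermediateField.adjoin k (Set.range X)) : AlgebraicIndependent k X := by
  have htop : IntermediateField.adjoin k (Set.range X) = ⊤ := by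
    rw [← top_le_iff, ← hK, IntermediateField.adjoin_le_iff]
    rintro _ ⟨i, rfl⟩
    exact h i
  have halg : Algebra.IsAlgebraic (Algebra.adjoin k (Set.range X)) K := by
    refine ⟨fun f ↦ ?_⟩
    have hf : f ∈ IntermediateField.adjoin k (Set.range X) := by
      rw [htop]
      trivial
    obtain ⟨r, hr, s, hs, rfl⟩ := IntermediateField.mem_adjoin_iff_div.1 hf
    have h1 : IsAlgebraic (Algebra.adjoin k (Set.range X)) r :=
      isAlgebraic_algebraMap (A := K) (⟨r, hr⟩ : Algebra.adjoin k (Set.range X))
    have h2 : IsAlgebraic (Algebra.adjoin k (Set.range X)) s :=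
      isAlgebraic_algebraMap (A := K) (⟨s, hs⟩ : Algebra.adjoin k (Set.range X))
    rw [div_eq_mul_inv]
    exact h1.mul h2.inv
  exact (Algebra.IsAlgebraic.isTranscendenceBasis_of_lift_le_trdeg_of_finite k X
    hY.lift_cardinalMk_le_trdeg).1

/-- The variables generate the field of rational functions. -/
theorem adjoin_variables (k : Type*) [Field k] :
    IntermediateField.adjoin k (Set.range fun i : Fin 3 ↦
      algebraMap (MvPolynomial (Fin 3) k) (FractionRing (MvPolynomial (Fin 3) k))
        (MvPolynomial.X i)) = ⊤ := by
  rw [← top_le_iff]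
  intro f _
  obtain ⟨a, b, -, rfl⟩ := IsFractionRing.div_surjective (A := MvPolynomial (Fin 3) k) f
  have h : ∀ a : MvPolynomial (Fin 3) k,
      algebraMap (MvPolynomial (Fin 3) k) (FractionRing (MvPolynomial (Fin 3) k)) a ∈
        Algebra.adjoin k (Set.range fun i : Fin 3 ↦
          algebraMap (MvPolynomial (Fin 3) k) (FractionRing (MvPolynomial (Fin 3) k))
            (MvPolynomial.X i)) := fun a ↦ by
    rw [Algebra.adjoin_range_eq_range_aeval]
    refine ⟨a, ?_⟩
    have h1 : MvPolynomial.aeval (fun i : Fin 3 ↦
          algebraMap (MvPolynomial (Fin 3) k) (FractionRing (MvPolynomial (Fin 3) k))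
            (MvPolynomial.X i)) = IsScalarTower.toAlgHom k (MvPolynomial (Fin 3) k)
              (FractionRing (MvPolynomial (Fin 3) k)) := by
      ext i
      simp
    exact DFunLike.congr_fun h1 a
  exact IntermediateField.mem_adjoin_iff_div.2 ⟨_, h a, _, h b, rfl⟩

/-- The variables are algebraically independent in the field of rational functions. -/
theorem algebraicIndependent_variables (k : Type*) [CommRing k] [IsDomain k] :
    AlgebraicIndependent k (fun i : Fin 3 ↦
      algebraMap (MvPolynomial (Fin 3) k) (FractionRing (MvPolynomial (Fin 3) k))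
        (MvPolynomial.X i)) := by
  have h1 : MvPolynomial.aeval (R := k) (fun i : Fin 3 ↦
          algebraMap (MvPolynomial (Fin 3) k) (FractionRing (MvPolynomial (Fin 3) k))
            (MvPolynomial.X i)) = IsScalarTower.toAlgHom k (MvPolynomial (Fin 3) k)
              (FractionRing (MvPolynomial (Fin 3) k)) := by
    ext i
    simp
  rw [AlgebraicIndependent, h1]
  exact IsFractionRing.injective (MvPolynomial (Fin 3) k) (FractionRing (MvPolynomial (Fin 3) k))

end H1F
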