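import Pool.Agent.Lib.H1F.LIFT.L6
import Pool.Agent.Lib.H1F.LIFT.L7
import Pool.Agent.Lib.H1F.Rings

/-!
# H1F, LIFT, part 8: reduction of the charts `NI`, `NII`
-/

universe u

namespace H1F

open MvPolynomial

/-- A frame: `a, v, w` are algebraically independent and generate the field. -/
structure FrameOK (k : Type*) {K : Type*} [Field k] [Field K] [Algebra k K] (a v w : K) :
    Prop where
  ind : AlgebraicIndependent k ![a, v, w]
  top : IntermediateField.adjoin k (Set.range ![a, v, w]) = ⊤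

section Frame

variable {k : Type*} {K : Type*} [Field k] [Field K] [Algebra k K] {a v w : K}

theorem FrameOK.aeval_ne (h : FrameOK k a v w) (F : MvPolynomial (Fin 3) k) (x y z : k)
    (hF : eval ![x, y, z] F ≠ 0) : aeval ![a, v, w] F ≠ 0 := by
  intro h0
  rw [algebraicIndependent_iff.1 h.ind F h0, map_zero] at hF
  exact hF rfl

theorem FrameOK.a_ne (h : FrameOK k a v w) : a ≠ 0 := by
  have h1 := h.aeval_ne (X 0) 1 0 0 (by simp)
  simpa using h1

theorem FrameOK.v_ne (h : FrameOK k a v w) : v ≠ 0 := by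
  have h1 := h.aeval_ne (X 1) 1 1 0 (by simp)
  simpa using h1

theorem FrameOK.w_ne (h : FrameOK k a v w) : w ≠ 0 := by
  have h1 := h.aeval_ne (X 2) 1 1 1 (by simp)
  simpa using h1

theorem FrameOK.a1_ne (h : FrameOK k a v w) : a - 1 ≠ 0 := by
  have h1 := h.aeval_ne (X 0 - 1) 0 1 1 (by simp)
  simpa using h1

theorem FrameOK.v1_ne (h : FrameOK k a v w) : v - 1 ≠ 0 := by
  have h1 := h.aeval_ne (X 1 - 1) 0 0 1 (by simp)
  simpa using h1

theorem FrameOK.w1_ne (h : FrameOK k a v w) : w - 1 ≠ 0 := by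
  have h1 := h.aeval_ne (X 2 - 1) 0 0 0 (by simp)
  simpa using h1

theorem FrameOK.wv_ne (h : FrameOK k a v w) : w - v ≠ 0 := by
  have h1 := h.aeval_ne (X 2 - X 1) 0 0 1 (by simp)
  simpa using h1

theorem FrameOK.vw_ne (h : FrameOK k a v w) : v - w ≠ 0 := by
  rw [← neg_ne_zero, neg_sub]
  exact h.wv_ne

theorem FrameOK.av_ne (h : FrameOK k a v w) {p : ℕ} (hp : p ≠ 0) : a - v ^ p ≠ 0 := by
  have h1 := h.aeval_ne (X 0 - X 1 ^ p) 1 0 0 (by simp [hp])
  simpa using h1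

theorem FrameOK.aw_ne (h : FrameOK k a v w) {p : ℕ} (hp : p ≠ 0) : a - w ^ p ≠ 0 := by
  have h1 := h.aeval_ne (X 0 - X 2 ^ p) 1 0 0 (by simp [hp])
  simpa using h1

/-- Elements `x, y, z` such that `a, v, w` are rational expressions in them. -/
theorem FrameOK.ind_of_mem (h : FrameOK k a v w) {x y z : K}
    (ha : a ∈ IntermediateField.adjoin k (Set.range ![x, y, z]))
    (hv : v ∈ IntermediateField.adjoin k (Set.range ![x, y, z]))
    (hw : w ∈ IntermediateField.adjoin k (Set.range ![x, y, z])) :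
    AlgebraicIndependent k ![x, y, z] :=
  algebraicIndependent_of_mem h.ind h.top fun i ↦ by
    fin_cases i
    · exact ha
    · exact hv
    · exact hw

/-- A change of frames. -/
theorem FrameOK.of_mem (h : FrameOK k a v w) {x y z : K}
    (ha : a ∈ IntermediateField.adjoin k (Set.range ![x, y, z]))
    (hv : v ∈ IntermediateField.adjoin k (Set.range ![x, y, z]))
    (hw : w ∈ IntermediateField.adjoin k (Set.range ![x, y, z])) : FrameOK k x y z := by
  refine ⟨h.ind_of_mem ha hv hw, ?_⟩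
  rw [← top_le_iff, ← h.top, IntermediateField.adjoin_le_iff]
  rintro _ ⟨i, rfl⟩
  fin_cases i
  · exact ha
  · exact hv
  · exact hw

theorem mem_of_eq' {F : IntermediateField k K} {x y : K} (e : x = y) (h : y ∈ F) : x ∈ F := by
  rw [e]
  exact h

theorem mem_adj0 (x y z : K) : x ∈ IntermediateField.adjoin k (Set.range ![x, y, z]) :=
  IntermediateField.subset_adjoin _ _ ⟨0, rfl⟩

theorem mem_adj1 (x y z : K) : y ∈ IntermediateField.adjoin k (Set.range ![x, y, z]) :=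
  IntermediateField.subset_adjoin _ _ ⟨1, rfl⟩

theorem mem_adj2 (x y z : K) : z ∈ IntermediateField.adjoin k (Set.range ![x, y, z]) :=
  IntermediateField.subset_adjoin _ _ ⟨2, rfl⟩

end Frame

section

variable {W k : Type u} [CommRing W] [Field k] {ρ : W →+* k} {K' K : Type u}
  [Field K'] [Field K] [Algebra W K'] [Algebra k K] {P : Place ρ K' K}

/-- The set `S'` reduces onto the set `S`. -/
def Place.SpSet (P : Place ρ K' K) (S' : Set K') (S : Set K) : Prop :=
  (∀ x ∈ S', ∃ y ∈ S, P.Sp x y) ∧ (∀ y ∈ S, ∃ x ∈ S', P.Sp x y)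

theorem Place.SpSet.single {x : K'} {y : K} (h : P.Sp x y) : P.SpSet {x} {y} := by
  refine ⟨?_, ?_⟩
  · rintro _ rfl
    exact ⟨y, rfl, h⟩
  · rintro _ rfl
    exact ⟨x, rfl, h⟩

theorem Place.SpSet.insert {x : K'} {y : K} {S' : Set K'} {S : Set K} (h : P.Sp x y)
    (H : P.SpSet S' S) : P.SpSet (insert x S') (insert y S) := by
  refine ⟨?_, ?_⟩
  · rintro _ (rfl | hx)
    · exact ⟨y, Or.inl rfl, h⟩
    · obtain ⟨y', hy', h'⟩ := H.1 _ hx
      exact ⟨y', Or.inr hy', h'⟩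
  · rintro _ (rfl | hy)
    · exact ⟨x, Or.inl rfl, h⟩
    · obtain ⟨x', hx', h'⟩ := H.2 _ hy
      exact ⟨x', Or.inr hx', h'⟩

/-- `x ≠ 0` if its reduction is not `0`. -/
theorem Place.Sp.ne_zero {x : K'} {y : K} (h : P.Sp x y) (hy : y ≠ 0) : x ≠ 0 := by
  rintro rfl
  exact hy (h.unique P.sp_zero)

/-- The hypotheses on `ρ`: surjective with principal kernel. -/
structure RhoOK (ρ : W →+* k) (ϖ : W) : Prop where
  surj : Function.Surjective ρ
  dvd : ∀ w, ρ w = 0 → ϖ ∣ w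
  zero : ρ ϖ = 0

theorem reduces_NI {ϖ : W} (hρ : RhoOK ρ ϖ) {a' v' w' : K'} {a v w : K} (ha : P.Sp a' a)
    (hv : P.Sp v' v) (hw : P.Sp w' w) (h : FrameOK k a v w) :
    P.Reduces (NI W a' v' w') (NI k a v w) := by
  have o := P.sp_one
  have hS := Place.SpSet.insert (hv.sub o) (.insert ((ha.sub o).div (hv.sub o) h.v1_ne)
    (.insert ((hw.sub o).inv h.w1_ne) (.insert (ha.inv h.a_ne)
      (.single ((hw.sub o).div (hw.sub hv) h.wv_ne)))))
  have e1 := (hv.sub o).ne_zero h.v1_ne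
  have e2 := (hw.sub o).ne_zero h.w1_ne
  have e3 := ha.ne_zero h.a_ne
  have e4 := (hw.sub hv).ne_zero h.wv_ne
  have hU : aeval ![v' - 1, (a' - 1) / (v' - 1), (w' - 1)⁻¹]
      ((1 + X 0 * X 1) * (1 - X 0 * X 2) : MvPolynomial (Fin 3) W) =
        a' * ((w' - v') / (w' - 1)) := by
    simp
    field_simp
    ring
  refine Place.reduces_of_presentation hρ.surj hρ.dvd hρ.zero hS.1 hS.2
    (X' := ![v' - 1, (a' - 1) / (v' - 1), (w' - 1)⁻¹])
    (X := ![v - 1, (a - 1) / (v - 1), (w - 1)⁻¹]) ?_ ?_ ((1 + X 0 * X 1) * (1 - X 0 * X 2))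
    (u := a * ((w - v) / (w - 1))) ?_ (mul_ne_zero h.a_ne (div_ne_zero h.wv_ne h.w1_ne)) ?_ ?_ ?_
  · intro i
    fin_cases i
    · exact hv.sub o
    · exact (ha.sub o).div (hv.sub o) h.v1_ne
    · exact (hw.sub o).inv h.w1_ne
  · have m0 := mem_adj0 (k := k) (v - 1) ((a - 1) / (v - 1)) (w - 1)⁻¹
    have m1 := mem_adj1 (k := k) (v - 1) ((a - 1) / (v - 1)) (w - 1)⁻¹
    have m2 := mem_adj2 (k := k) (v - 1) ((a - 1) / (v - 1)) (w - 1)⁻¹
    refine h.ind_of_mem ?_ ?_ ?_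
    · have e : a = (a - 1) / (v - 1) * (v - 1) + 1 := by
        rw [div_mul_cancel₀ _ h.v1_ne]; ring
      exact mem_of_eq' e (add_mem (mul_mem m1 m0) (one_mem _))
    · exact mem_of_eq' (sub_add_cancel v 1).symm (add_mem m0 (one_mem _))
    · have e : w = ((w - 1)⁻¹)⁻¹ + 1 := by rw [inv_inv]; ring
      exact mem_of_eq' e (add_mem (inv_mem m2) (one_mem _))
  · rw [hU]
    exact ha.mul ((hw.sub hv).div (hw.sub o) h.w1_ne)
  · rw [hU]
    rintro _ (rfl | rfl | rfl | rfl | rfl)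
    · exact ⟨0, X 0, by simp⟩
    · exact ⟨0, X 1, by simp⟩
    · exact ⟨0, X 2, by simp⟩
    · refine ⟨1, 1 - X 0 * X 2, ?_⟩
      simp
      field_simp
      ring
    · refine ⟨1, 1 + X 0 * X 1, ?_⟩
      simp
      field_simp
      ring
  · intro i
    fin_cases i
    · exact Algebra.subset_adjoin (by simp)
    · exact Algebra.subset_adjoin (by simp)
    · exact Algebra.subset_adjoin (by simp)
  · rw [hU]
    have h5 : (a' * ((w' - v') / (w' - 1)))⁻¹ = a'⁻¹ * ((w' - 1) / (w' - v')) := by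
      field_simp
    rw [h5]
    exact mul_mem (Algebra.subset_adjoin (by simp)) (Algebra.subset_adjoin (by simp))

theorem reduces_NII {ϖ : W} (hρ : RhoOK ρ ϖ) {a' v' w' : K'} {a v w : K} (ha : P.Sp a' a)
    (hv : P.Sp v' v) (hw : P.Sp w' w) (h : FrameOK k a v w) :
    P.Reduces (NII W a' v' w') (NII k a v w) := by
  have o := P.sp_one
  have hS := Place.SpSet.insert (ha.sub o) (.insert ((hv.sub o).div (ha.sub o) h.a1_ne)
    (.insert ((hw.sub o).inv h.w1_ne) (.insert (ha.inv h.a_ne)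
      (.single ((hw.sub o).div (hw.sub hv) h.wv_ne)))))
  have e1 := (ha.sub o).ne_zero h.a1_ne
  have e2 := (hw.sub o).ne_zero h.w1_ne
  have e3 := ha.ne_zero h.a_ne
  have e4 := (hw.sub hv).ne_zero h.wv_ne
  have hU : aeval ![a' - 1, (v' - 1) / (a' - 1), (w' - 1)⁻¹]
      ((1 + X 0) * (1 - X 0 * X 1 * X 2) : MvPolynomial (Fin 3) W) =
        a' * ((w' - v') / (w' - 1)) := by
    simp only [map_mul, map_add, map_sub, map_one, aeval_X, Matrix.cons_val_zero,
      Matrix.cons_val_one, Matrix.cons_val]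
    field_simp
    ring
  refine Place.reduces_of_presentation hρ.surj hρ.dvd hρ.zero hS.1 hS.2
    (X' := ![a' - 1, (v' - 1) / (a' - 1), (w' - 1)⁻¹])
    (X := ![a - 1, (v - 1) / (a - 1), (w - 1)⁻¹]) ?_ ?_ ((1 + X 0) * (1 - X 0 * X 1 * X 2))
    (u := a * ((w - v) / (w - 1))) ?_ (mul_ne_zero h.a_ne (div_ne_zero h.wv_ne h.w1_ne)) ?_ ?_ ?_
  · intro i
    fin_cases i
    · exact ha.sub o
    · exact (hv.sub o).div (ha.sub o) h.a1_ne
    · exact (hw.sub o).inv h.w1_ne
  · have m0 := mem_adj0 (k := k) (a - 1) ((v - 1) / (a - 1)) (w - 1)⁻¹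
    have m1 := mem_adj1 (k := k) (a - 1) ((v - 1) / (a - 1)) (w - 1)⁻¹
    have m2 := mem_adj2 (k := k) (a - 1) ((v - 1) / (a - 1)) (w - 1)⁻¹
    refine h.ind_of_mem ?_ ?_ ?_
    · exact mem_of_eq' (sub_add_cancel a 1).symm (add_mem m0 (one_mem _))
    · have e : v = (v - 1) / (a - 1) * (a - 1) + 1 := by
        rw [div_mul_cancel₀ _ h.a1_ne]; ring
      exact mem_of_eq' e (add_mem (mul_mem m1 m0) (one_mem _))
    · have e : w = ((w - 1)⁻¹)⁻¹ + 1 := by rw [inv_inv]; ring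
      exact mem_of_eq' e (add_mem (inv_mem m2) (one_mem _))
  · rw [hU]
    exact ha.mul ((hw.sub hv).div (hw.sub o) h.w1_ne)
  · rw [hU]
    rintro _ (rfl | rfl | rfl | rfl | rfl)
    · exact ⟨0, X 0, by simp⟩
    · exact ⟨0, X 1, by simp⟩
    · exact ⟨0, X 2, by simp⟩
    · refine ⟨1, 1 - X 0 * X 1 * X 2, ?_⟩
      simp
      field_simp
      ring
    · refine ⟨1, 1 + X 0, ?_⟩
      simp
      field_simp
  · intro i
    fin_cases i
    · exact Algebra.subset_adjoin (by simp)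
    · exact Algebra.subset_adjoin (by simp)
    · exact Algebra.subset_adjoin (by simp)
  · rw [hU]
    have h5 : (a' * ((w' - v') / (w' - 1)))⁻¹ = a'⁻¹ * ((w' - 1) / (w' - v')) := by
      field_simp
    rw [h5]
    exact mul_mem (Algebra.subset_adjoin (by simp)) (Algebra.subset_adjoin (by simp))

end

end H1F
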